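import Pool.Agent.H877R3.HSC.Decode

/-!
# Hereditary structural completeness for logics of finite Heyting algebras: an explicit criterion

Let `A` be a finite Heyting algebra with `n` elements. The structural completion of `⟨L(A), MP⟩` is
hereditarily structurally complete if and only if, for all finite algebras `B` and `C` in the
quasivariety generated by the free algebras of the variety of `A`, such that `B` is a homomorphic
image of `C`, the homomorphisms from `B` to `C` separate the points of `B`; and it is enough to look
at algebras with at most `n ^ (n ^ n)` and `n ^ (n ^ (n ^ (n ^ n)))` elements. This is expressed,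
uniformly in `A`, by one bounded formula of arithmetic with exponentiation, and is decided by a
primitive recursive function of the operation tables.
-/

set_option autoImplicit false

namespace Pool.Agent.Results.MP_d44404_lc.ExplicitCriterion

open Pool.Agent.H877R3.HSC RA

/-- **Main result.**

(1) For a Heyting algebra `A` with `n` elements the structural completion of `⟨L(A), MP⟩` is
hereditarily structurally complete iff for all finite algebras `B`, `C` in the quasivariety
generated by the free algebras of the variety of `A` (`SepF A`), with `B` a homomorphic image of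
`C`, the homomorphisms from `B` to `C` separate the points of `B`;

(2) and iff this holds for all such `B`, `C` with at most `n ^ (n ^ n)` and
`n ^ (n ^ (n ^ (n ^ n)))` elements.

(3) A single bounded formula of arithmetic with exponentiation expresses it for all `A`, in terms of
the operation tables of `A`.

(4) It is decided by a primitive recursive function of the operation tables of `A`. -/
theorem result :
    (∀ (A : Type) [HeytingAlgebra A] (n : ℕ), Nonempty (A ≃ Fin n) →
      ((logicSystem A).completion.HereditarilyStructurallyComplete ↔
        ∀ (m l : ℕ) (B : RA (Fin m)) (C : RA (Fin l)), SepF A B → SepF A C →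
          (∃ g : Fin l → Fin m, Function.Surjective g ∧ IsHom C B g) → Sep B C) ∧
      ((logicSystem A).completion.HereditarilyStructurallyComplete ↔
        ∀ (m l : ℕ), m ≤ n ^ (n ^ n) → l ≤ n ^ (n ^ (n ^ (n ^ n))) →
          ∀ (B : RA (Fin m)) (C : RA (Fin l)), SepF A B → SepF A C →
            (∃ g : Fin l → Fin m, Function.Surjective g ∧ IsHom C B g) → Sep B C)) ∧
    (∃ p : Bf, ∀ (A : Type) [HeytingAlgebra A] (n : ℕ) (e : A ≃ Fin n),
      p.holds (tables e) [] ↔
        (logicSystem A).completion.HereditarilyStructurallyComplete) ∧
    ∃ f : List ℕ → Bool, Primrec f ∧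
      ∀ (A : Type) [HeytingAlgebra A] (n : ℕ) (e : A ≃ Fin n),
        f (tables e) = true ↔
          (logicSystem A).completion.HereditarilyStructurallyComplete := by
  have hcr : ∀ (A : Type) [HeytingAlgebra A] (n : ℕ) (e : A ≃ Fin n),
      Fo.crit.holds (tables e) [] ↔
        (logicSystem A).completion.HereditarilyStructurallyComplete := by
    intro A _ n e
    rw [crit_holds, critN_iff e, ← hsc_iff_crit e]
  refine ⟨?_, ⟨Fo.crit, hcr⟩, ?_⟩
  · rintro A _ n ⟨e⟩
    have h2 : (logicSystem A).completion.HereditarilyStructurallyComplete ↔
        ∀ (m l : ℕ), m ≤ n ^ (n ^ n) → l ≤ n ^ (n ^ (n ^ (n ^ n))) →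
          ∀ (B : RA (Fin m)) (C : RA (Fin l)), SepF A B → SepF A C →
            (∃ g : Fin l → Fin m, Function.Surjective g ∧ IsHom C B g) → Sep B C := by
      rw [hsc_iff_crit e]
      exact ⟨fun h m l hm hl B C hB hC hg => h m hm l hl B C hB hC hg,
        fun h m hm l hl B C hB hC hg => h m l hm hl B C hB hC hg⟩
    refine ⟨⟨fun h m l B C hB hC hg => ?_, fun h => h2.2 fun m l _ _ => h m l⟩, h2⟩
    exact crit_of_hsc h m l m le_rfl l le_rfl B C hB hC hg
  · obtain ⟨inst, h⟩ := Fo.crit.primrec.comp (Primrec.id.pair (Primrec.const ([] : List ℕ)))
    refine ⟨_, h, fun A _ n e => ?_⟩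
    rw [← hcr A n e]
    simp

end Pool.Agent.Results.MP_d44404_lc.ExplicitCriterion
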